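import Pool.Agent.Helper99.AB.Stmts

set_option autoImplicit false

open Finset
open scoped BigOperators

namespace Pool.Agent.Helper71.AB

open Pool.Agent.Helper99.AB

/-- A semiprime `p q < n` gives the lower bound `p q + p` for `Fn n`. -/
lemma Fn_ge (n p q : ℕ) (hp : p.Prime) (hq : q.Prime) (hpq : p < q) (hn : p * q < n) :
    p * q + p ≤ Fn n := by
  have h1 : 1 < p * q := by
    have := hp.two_le
    have := hq.two_le
    nlinarith
  have h2 : ¬ (p * q).Prime := Nat.not_prime_mul hp.one_lt.ne' hq.one_lt.ne'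
  have h3 : (p * q).minFac = p := by
    apply le_antisymm
    · exact Nat.minFac_le_of_dvd hp.two_le (Dvd.intro _ rfl)
    · have hm : (p * q).minFac.Prime := Nat.minFac_prime h1.ne'
      have hd : (p * q).minFac ∣ p * q := Nat.minFac_dvd _
      rcases (Nat.Prime.dvd_mul hm).1 hd with h | h
      · exact ((Nat.prime_dvd_prime_iff_eq hm hp).1 h).ge
      · have := (Nat.prime_dvd_prime_iff_eq hm hq).1 h
        omega
  unfold Fn
  have := Finset.le_sup (f := fun m => m + m.minFac)
    (s := (Finset.range n).filter (fun m => 1 < m ∧ ¬ m.Prime)) (b := p * q)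
    (Finset.mem_filter.2 ⟨Finset.mem_range.2 hn, h1, h2⟩)
  simp only [h3] at this
  exact this

theorem st_FB (hUN : ST_UN) : ST_FB := by
  obtain ⟨c, hc, h⟩ := hUN
  refine ⟨c / 16, by positivity, fun κ hκ hκ1 => ?_⟩
  obtain ⟨M₀, hM₀⟩ := h κ hκ hκ1
  refine ⟨⌈16 * (max M₀ 3) ^ 2⌉₊, fun N hN => ?_⟩
  set M : ℝ := Real.sqrt N / 4 with hMdef
  have hN' : 16 * (max M₀ 3) ^ 2 ≤ (N : ℝ) := le_trans (Nat.le_ceil _) (by exact_mod_cast hN)
  have hmax : (0 : ℝ) ≤ max M₀ 3 := le_trans (by norm_num) (le_max_right _ _)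
  have hMm : max M₀ 3 ≤ M := by
    rw [hMdef, le_div_iff₀ (by norm_num : (0 : ℝ) < 4)]
    apply Real.le_sqrt_of_sq_le
    nlinarith
  have hM1 : M₀ ≤ M := le_trans (le_max_left _ _) hMm
  have hM3 : (3 : ℝ) ≤ M := le_trans (le_max_right _ _) hMm
  have hM0 : (0 : ℝ) < M := by linarith
  have hsq : 16 * M ^ 2 = N := by
    rw [hMdef, div_pow, Real.sq_sqrt (Nat.cast_nonneg N)]; ring
  have hu := hM₀ M hM1
  have hfl : ⌊16 * M ^ 2⌋₊ = N := by rw [hsq]; exact Nat.floor_natCast N
  rw [hfl] at hu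
  have hlog : 1 ≤ Real.log M := by
    rw [Real.le_log_iff_exp_le hM0]
    have := Real.exp_one_lt_d9
    linarith
  have hs1 : 1 ≤ Real.sqrt M := Real.one_le_sqrt.2 (by linarith)
  calc c / 16 * (κ ^ 2 * N) = c * (κ ^ 2 * M ^ 2) := by rw [← hsq]; ring
    _ ≤ _ := hu
    _ ≤ _ := by
      apply Nat.cast_le.2
      apply Finset.card_le_card
      intro n hn
      rw [Finset.mem_filter] at hn ⊢
      obtain ⟨hn1, ⟨p, q⟩, hr, hlt, hle⟩ := hn
      refine ⟨hn1, ?_⟩
      simp only at hlt hle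
      unfold CP at hr
      rw [Finset.mem_filter, Finset.mem_product] at hr
      obtain ⟨⟨hp, hq⟩, hpq, hqp⟩ := hr
      simp only at hp hq hpq hqp
      unfold PM at hp hq
      rw [Finset.mem_filter, Finset.mem_Ioc] at hp hq
      have hpM : M < p := (Nat.floor_lt hM0.le).1 hp.1.1
      have hF := Fn_ge n p q hp.2 hq.2 hpq hlt
      have hF' : (p : ℝ) * q + p ≤ Fn n := by exact_mod_cast hF
      have hLe0 : 0 < Le κ M := by unfold Le; positivity
      have hpqn : (p : ℝ) * q < n := by exact_mod_cast hlt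
      push_cast at hle
      have hpR : (0 : ℝ) < p := by linarith
      have hpq' : (p : ℝ) < q := by exact_mod_cast hpq
      -- sqrt n ≤ p + Le
      have h1 : Real.sqrt n ≤ p + Le κ M := by
        apply Real.sqrt_le_iff.2
        refine ⟨by positivity, ?_⟩
        have : (p : ℝ) * q ≤ p * (p + Le κ M) := mul_le_mul_of_nonneg_left hqp hpR.le
        nlinarith [mul_pos hpR hLe0, sq_nonneg (Le κ M)]
      -- n > M^2
      have hnM : M ^ 2 ≤ (n : ℝ) := by nlinarith
      have hn0 : (0 : ℝ) < n := by nlinarith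
      have h2 : 2 * Real.log M ≤ Real.log n := by
        have := Real.log_le_log (by positivity : (0 : ℝ) < M ^ 2) hnM
        rw [Real.log_pow] at this
        push_cast at this
        exact this
      have h3 : Real.sqrt M ≤ (n : ℝ) ^ (1 / 4 : ℝ) := by
        have h4 : (M ^ 2) ^ (1 / 4 : ℝ) ≤ (n : ℝ) ^ (1 / 4 : ℝ) :=
          Real.rpow_le_rpow (by positivity) hnM (by norm_num)
        have h5 : (M ^ 2) ^ (1 / 4 : ℝ) = Real.sqrt M := by
          rw [← Real.rpow_natCast M 2, ← Real.rpow_mul hM0.le, Real.sqrt_eq_rpow]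
          norm_num
        rwa [h5] at h4
      have h6 : 2 * Le κ M ≤ κ * (n : ℝ) ^ (1 / 4 : ℝ) * Real.log n := by
        unfold Le
        have h7 : Real.sqrt M * (2 * Real.log M) ≤ (n : ℝ) ^ (1 / 4 : ℝ) * Real.log n :=
          mul_le_mul h3 h2 (by linarith) (by positivity)
        calc 2 * (κ * Real.sqrt M * Real.log M) = κ * (Real.sqrt M * (2 * Real.log M)) := by ring
          _ ≤ κ * ((n : ℝ) ^ (1 / 4 : ℝ) * Real.log n) := mul_le_mul_of_nonneg_left h7 hκ.le
          _ = _ := by ring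
      linarith

end Pool.Agent.Helper71.AB
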