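import Pool.Agent.Helper99.AB.Stmts

set_option autoImplicit false

open Finset
open scoped BigOperators

namespace Pool.Agent.Helper71.AB

open Pool.Agent.Helper99.AB

lemma G_neg (n : ℤ) : G (-n) = G n := by
  unfold G; rw [Int.natAbs_neg]

lemma G_pos (n : ℤ) : 0 < G n := Real.exp_pos _

/-- The product of six cubes is at most the sum of the 18-th powers. -/
lemma prod_le_sum (a : Fin 6 → ℝ) (ha : ∀ k, 0 < a k) :
    ∏ k, a k ^ 3 ≤ ∑ k, a k ^ 18 := by
  obtain ⟨m, -, hm⟩ := Finset.exists_max_image (univ : Finset (Fin 6)) a ⟨0, mem_univ _⟩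
  calc ∏ k, a k ^ 3 ≤ ∏ _k : Fin 6, a m ^ 3 := by
        apply Finset.prod_le_prod
        · intro k _; exact (pow_pos (ha k) 3).le
        · intro k hk; exact pow_le_pow_left₀ (ha k).le (hm k hk) 3
    _ = a m ^ 18 := by
        rw [Finset.prod_const, Finset.card_univ, Fintype.card_fin, ← pow_mul]
    _ ≤ ∑ k, a k ^ 18 :=
        Finset.single_le_sum (f := fun k => a k ^ 18)
          (fun k _ => (pow_pos (ha k) 18).le) (mem_univ m)

/-- The four shifts. -/
def sh (i β β' : ℕ) : Fin 4 → ℤ := ![-(β' : ℤ), (β' : ℤ), i - β, i + β]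

lemma prod_sh (i β β' : ℕ) :
    ∏ r ∈ (univ : Finset (Fin 4 × Fin 4)).filter (fun r => r.1 < r.2),
      G (sh i β β' r.1 - sh i β β' r.2) ^ 3 = ∏ k, G (EE k i β β') ^ 3 := by
  have hf : (univ : Finset (Fin 4 × Fin 4)).filter (fun r => r.1 < r.2) =
      {(0, 1), (0, 2), (0, 3), (1, 2), (1, 3), (2, 3)} := by decide
  rw [hf, Finset.prod_insert (by decide), Finset.prod_insert (by decide),
    Finset.prod_insert (by decide), Finset.prod_insert (by decide),
    Finset.prod_insert (by decide), Finset.prod_singleton, Fin.prod_univ_six]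
  have e01 : sh i β β' 0 - sh i β β' 1 = -EE 1 i β β' := by
    simp [sh, EE]; ring
  have e02 : sh i β β' 0 - sh i β β' 2 = -EE 2 i β β' := by
    simp [sh, EE]; ring
  have e03 : sh i β β' 0 - sh i β β' 3 = -EE 4 i β β' := by
    simp [sh, EE]; ring
  have e12 : sh i β β' 1 - sh i β β' 2 = -EE 3 i β β' := by
    simp [sh, EE]
  have e13 : sh i β β' 1 - sh i β β' 3 = -EE 5 i β β' := by
    simp [sh, EE]
  have e23 : sh i β β' 2 - sh i β β' 3 = -EE 0 i β β' := by
    simp [sh, EE]; ring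
  simp only [e01, e02, e03, e12, e13, e23, G_neg]
  ring

lemma sh_ne (i β β' : ℕ) (h : ∀ k, EE k i β β' ≠ 0) :
    ∀ a b : Fin 4, a < b → sh i β β' a ≠ sh i β β' b := by
  have h0 := h 0
  have h1 := h 1
  have h2 := h 2
  have h3 := h 3
  have h4 := h 4
  have h5 := h 5
  simp [EE] at h0 h1 h2 h3 h4 h5
  intro a b hab
  fin_cases a <;> fin_cases b <;> simp_all [sh] <;> omega

/-- Asymptotic facts. -/
lemma big (κ : ℝ) (hκ : 0 < κ) (X₀ : ℕ) : ∃ M₀ : ℝ, 3 ≤ M₀ ∧ ∀ M : ℝ, M₀ ≤ M →
    M ^ (1 / 3 : ℝ) * Real.log M ≤ κ * Real.sqrt M ∧ (X₀ : ℝ) ≤ M ^ (1 / 3 : ℝ) := by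
  have h1 : ∀ᶠ M : ℝ in Filter.atTop, ‖Real.log M‖ ≤ κ * ‖M ^ (1 / 6 : ℝ)‖ :=
    (isLittleO_log_rpow_atTop (by norm_num : (0 : ℝ) < 1 / 6)).def hκ
  have h2 : ∀ᶠ M : ℝ in Filter.atTop, (X₀ : ℝ) ≤ M ^ (1 / 3 : ℝ) :=
    (tendsto_rpow_atTop (by norm_num : (0 : ℝ) < 1 / 3)).eventually_ge_atTop _
  obtain ⟨M₀, hM₀⟩ := Filter.eventually_atTop.1 (h1.and h2)
  refine ⟨max M₀ 3, le_max_right _ _, fun M hM => ?_⟩
  have hM3 : (3 : ℝ) ≤ M := le_trans (le_max_right _ _) hM
  have hM0 : (0 : ℝ) < M := by linarith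
  obtain ⟨ha, hb⟩ := hM₀ M (le_trans (le_max_left _ _) hM)
  refine ⟨?_, hb⟩
  rw [Real.norm_of_nonneg (Real.log_nonneg (by linarith)),
    Real.norm_of_nonneg (Real.rpow_nonneg hM0.le _)] at ha
  calc M ^ (1 / 3 : ℝ) * Real.log M ≤ M ^ (1 / 3 : ℝ) * (κ * M ^ (1 / 6 : ℝ)) :=
        mul_le_mul_of_nonneg_left ha (Real.rpow_nonneg hM0.le _)
    _ = κ * (M ^ (1 / 3 : ℝ) * M ^ (1 / 6 : ℝ)) := by ring
    _ = κ * Real.sqrt M := by
        rw [← Real.rpow_add hM0, Real.sqrt_eq_rpow]; norm_num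

/-- `sqrt M * log M + 1 ≤ M ^ 2`. -/
lemma small (M : ℝ) (hM : 3 ≤ M) : Real.sqrt M * Real.log M + 1 ≤ M ^ 2 := by
  have hM0 : (0 : ℝ) < M := by linarith
  have hs : 0 < Real.sqrt M := Real.sqrt_pos.2 hM0
  have hl : Real.log M = 2 * Real.log (Real.sqrt M) := by
    rw [Real.log_sqrt hM0.le]; ring
  have h1 : Real.log (Real.sqrt M) ≤ Real.sqrt M - 1 := Real.log_le_sub_one_of_pos hs
  have hsq : Real.sqrt M * Real.sqrt M = M := Real.mul_self_sqrt hM0.le
  have h2 : Real.sqrt M * Real.log M ≤ 2 * M := by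
    rw [hl]
    nlinarith
  nlinarith

theorem st_Z2 (hQF : ST_QF) : ST_Z2 := by
  obtain ⟨C, hC, X₀, hX₀⟩ := hQF
  refine ⟨C * 162, by positivity, fun κ hκ hκ1 => ?_⟩
  obtain ⟨M₀, hM₀3, hM₀⟩ := big κ hκ (max X₀ 3)
  refine ⟨M₀, fun M hM => ?_⟩
  obtain ⟨hA, hB⟩ := hM₀ M hM
  have hM3 : (3 : ℝ) ≤ M := le_trans hM₀3 hM
  have hM0 : (0 : ℝ) < M := by linarith
  have hlog : 0 < Real.log M := Real.log_pos (by linarith)
  have hlog1 : 1 ≤ Real.log M := by
    rw [Real.le_log_iff_exp_le hM0]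
    have := Real.exp_one_lt_d9
    linarith
  have hLe : 0 < Le κ M := by
    unfold Le; positivity
  have hLe2 : Le κ M + 1 ≤ M ^ 2 := by
    have h1 := small M hM3
    have h2 : Le κ M ≤ Real.sqrt M * Real.log M := by
      unfold Le
      have : 0 ≤ Real.sqrt M * Real.log M := by positivity
      nlinarith
    linarith
  -- fibres
  have hmaps : Set.MapsTo (fun s : (ℕ × ℕ × ℕ) × ℕ => s.1) (ZZ κ M : Set _) (RR κ M : Set _) := by
    intro s hs
    have hs' := Finset.mem_coe.1 hs
    unfold ZZ at hs'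
    exact Finset.mem_coe.2 (Finset.mem_product.1 (Finset.mem_filter.1 hs').1).1
  rw [Finset.card_eq_sum_card_fiberwise hmaps]
  push_cast
  have key : ∀ r ∈ RR κ M,
      (((ZZ κ M).filter (fun s => s.1 = r)).card : ℝ) ≤
        ∑ k : Fin 6, (if EE k r.1 r.2.1 r.2.2 ≠ 0 then
          C * 162 * (Le κ M / Real.log M ^ 4) * (1 / (r.1 : ℝ) * G (EE k r.1 r.2.1 r.2.2) ^ 18)
          else 0) := by
    rintro ⟨i, β, β'⟩ hr
    have hr' := hr
    unfold RR at hr'
    simp only [Finset.mem_filter, Finset.mem_product, Finset.mem_Icc] at hr'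
    obtain ⟨⟨⟨hi1, hi2⟩, ⟨hβ1, hβ2⟩, ⟨hβ1', hβ2'⟩⟩, -, -⟩ := hr'
    have hi0 : (0 : ℝ) < i := by exact_mod_cast hi1
    rcases Finset.eq_empty_or_nonempty ((ZZ κ M).filter (fun s => s.1 = (i, β, β'))) with he | hne
    · rw [he]
      simp only [Finset.card_empty, Nat.cast_zero]
      apply Finset.sum_nonneg
      intro k _
      split_ifs
      · have := G_pos (EE k i β β')
        positivity
      · exact le_refl _
    · have hE : ∀ k, EE k i β β' ≠ 0 := by
        obtain ⟨s, hs⟩ := hne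
        rw [Finset.mem_filter] at hs
        obtain ⟨hs1, hs2⟩ := hs
        unfold ZZ at hs1
        have := (Finset.mem_filter.1 hs1).2.1
        rw [hs2] at this
        exact this
      have hcard : (((ZZ κ M).filter (fun s => s.1 = (i, β, β'))).image
          (fun s => (s.2 : ℤ))).card = ((ZZ κ M).filter (fun s => s.1 = (i, β, β'))).card := by
        apply Finset.card_image_of_injOn
        intro s hs t ht hst
        have hs' := (Finset.mem_filter.1 (Finset.mem_coe.1 hs)).2
        have ht' := (Finset.mem_filter.1 (Finset.mem_coe.1 ht)).2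
        have : s.2 = t.2 := Int.ofNat_inj.1 hst
        exact Prod.ext (hs'.trans ht'.symm) this
      rw [← hcard]
      -- the interval
      have hiL : (i : ℝ) ≤ Real.log M ^ 2 := by
        have := Nat.floor_le (show (0 : ℝ) ≤ Real.log M ^ 2 by positivity)
        exact le_trans (by exact_mod_cast hi2) this
      have hLi : M ^ (1 / 3 : ℝ) ≤ Le κ M / i := by
        rw [le_div_iff₀ hi0]
        calc M ^ (1 / 3 : ℝ) * i ≤ M ^ (1 / 3 : ℝ) * Real.log M ^ 2 :=
              mul_le_mul_of_nonneg_left hiL (Real.rpow_nonneg hM0.le _)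
          _ = (M ^ (1 / 3 : ℝ) * Real.log M) * Real.log M := by ring
          _ ≤ (κ * Real.sqrt M) * Real.log M := mul_le_mul_of_nonneg_right hA hlog.le
          _ = Le κ M := rfl
      have h3 : (3 : ℝ) ≤ M ^ (1 / 3 : ℝ) := by
        refine le_trans ?_ hB
        exact_mod_cast le_max_right X₀ 3
      set X : ℕ := ⌊Le κ M / i⌋₊ + 1 with hX
      have hXl : Le κ M / i < X := by
        rw [hX]; push_cast; exact Nat.lt_floor_add_one _
      have hXu : (X : ℝ) ≤ Le κ M / i + 1 := by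
        rw [hX]; push_cast
        have := Nat.floor_le (show (0 : ℝ) ≤ Le κ M / i by positivity)
        linarith
      have hXX : X₀ ≤ X := by
        have h1 : ((max X₀ 3 : ℕ) : ℝ) < X := lt_of_le_of_lt hB (lt_of_le_of_lt hLi hXl)
        have h2 : max X₀ 3 < X := by exact_mod_cast h1
        exact le_trans (le_max_left _ _) h2.le
      have hi1' : (1 : ℝ) ≤ i := by exact_mod_cast hi1
      have hXM : (X : ℝ) ≤ M ^ 2 := by
        have : Le κ M / i ≤ Le κ M := div_le_self hLe.le hi1'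
        linarith
      set c : ℝ := ((β : ℝ) ^ 2 - (β' : ℝ) ^ 2) - (i : ℝ) * i with hc
      have hq := hX₀ X ⌊(c - Le κ M) / (2 * i)⌋ (sh i β β') M hXX hXM hM0 (sh_ne i β β' hE)
        (((ZZ κ M).filter (fun s => s.1 = (i, β, β'))).image (fun s => (s.2 : ℤ))) (by
          intro x hx
          rw [Finset.mem_image] at hx
          obtain ⟨s, hs, rfl⟩ := hx
          rw [Finset.mem_filter] at hs
          obtain ⟨hs1, hs2⟩ := hs
          unfold ZZ at hs1
          rw [Finset.mem_filter] at hs1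
          obtain ⟨-, -, habs, hp1, hp2, hp3, hp4⟩ := hs1
          rw [hs2] at habs hp1 hp2 hp3 hp4
          simp only at habs hp1 hp2 hp3 hp4
          rw [abs_lt] at habs
          have e1 : (c - Le κ M) / (2 * i) < (s.2 : ℝ) := by
            rw [div_lt_iff₀ (by positivity)]
            rw [hc]; nlinarith [habs.1]
          have e2 : (s.2 : ℝ) < (c - Le κ M) / (2 * i) + Le κ M / i := by
            have : (c - Le κ M) / (2 * i) + Le κ M / i = (c + Le κ M) / (2 * i) := by
              field_simp; ring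
            rw [this, lt_div_iff₀ (by positivity)]
            rw [hc]; nlinarith [habs.2]
          refine ⟨?_, ?_, ?_⟩
          · have : ((⌊(c - Le κ M) / (2 * i)⌋ : ℤ) : ℝ) < ((s.2 : ℤ) : ℝ) := by
              push_cast
              exact lt_of_le_of_lt (Int.floor_le _) e1
            exact_mod_cast this
          · have e3 : ((s.2 : ℤ) : ℝ) < ((⌊(c - Le κ M) / (2 * i)⌋ : ℤ) : ℝ) + 1 + Le κ M / i := by
              push_cast
              have := Int.lt_floor_add_one ((c - Le κ M) / (2 * i))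
              linarith
            have e4 : ((s.2 : ℤ) : ℝ) < ((⌊(c - Le κ M) / (2 * i)⌋ + X + 1 : ℤ) : ℝ) := by
              push_cast at e3 ⊢
              linarith
            have e5 : (s.2 : ℤ) < ⌊(c - Le κ M) / (2 * i)⌋ + X + 1 := by exact_mod_cast e4
            omega
          · have hPM : ∀ p ∈ PM M, p.Prime ∧ M < p := by
              intro p hp
              unfold PM at hp
              rw [Finset.mem_filter, Finset.mem_Ioc] at hp
              refine ⟨hp.2, ?_⟩
              exact (Nat.floor_lt hM0.le).1 hp.1.1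
            obtain ⟨p1, hp1, hp1'⟩ := hp1
            obtain ⟨p2, hp2, hp2'⟩ := hp2
            obtain ⟨p3, hp3, hp3'⟩ := hp3
            obtain ⟨p4, hp4, hp4'⟩ := hp4
            intro a
            fin_cases a
            · exact ⟨p1, (hPM p1 hp1).1, (hPM p1 hp1).2, by simp [sh]; linarith⟩
            · exact ⟨p2, (hPM p2 hp2).1, (hPM p2 hp2).2, by simp [sh]; linarith⟩
            · exact ⟨p3, (hPM p3 hp3).1, (hPM p3 hp3).2, by simp [sh]; linarith⟩
            · exact ⟨p4, (hPM p4 hp4).1, (hPM p4 hp4).2, by simp [sh]; linarith⟩)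
      rw [prod_sh] at hq
      have hprod := prod_le_sum (fun k => G (EE k i β β')) (fun k => G_pos _)
      have hlogX : Real.log M / 3 ≤ Real.log X := by
        have h1 : Real.log (M ^ (1 / 3 : ℝ)) ≤ Real.log X :=
          Real.log_le_log (Real.rpow_pos_of_pos hM0 _) (by linarith)
        rw [Real.log_rpow hM0] at h1
        linarith
      have hX4 : (X : ℝ) / Real.log X ^ 4 ≤ 162 * (Le κ M / Real.log M ^ 4) * (1 / i) := by
        have h1 : (X : ℝ) ≤ 2 * (Le κ M / i) := by
          have : (1 : ℝ) ≤ Le κ M / i := by linarith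
          linarith
        have h2 : (Real.log M / 3) ^ 4 ≤ Real.log X ^ 4 :=
          pow_le_pow_left₀ (by positivity) hlogX 4
        calc (X : ℝ) / Real.log X ^ 4 ≤ (2 * (Le κ M / i)) / (Real.log M / 3) ^ 4 :=
              div_le_div₀ (by positivity) h1 (by positivity) h2
          _ = 162 * (Le κ M / Real.log M ^ 4) * (1 / i) := by
              field_simp; norm_num
      calc ((((ZZ κ M).filter (fun s => s.1 = (i, β, β'))).image (fun s => (s.2 : ℤ))).card : ℝ)
          ≤ C * (X / Real.log X ^ 4) * ∏ k, G (EE k i β β') ^ 3 := hq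
        _ ≤ C * (162 * (Le κ M / Real.log M ^ 4) * (1 / i)) * ∑ k, G (EE k i β β') ^ 18 := by
            apply mul_le_mul (mul_le_mul_of_nonneg_left hX4 hC.le) hprod
            · exact Finset.prod_nonneg fun k _ => (pow_pos (G_pos _) 3).le
            · positivity
        _ = _ := by
            rw [Finset.mul_sum]
            apply Finset.sum_congr rfl
            intro k _
            rw [if_pos (hE k)]
            ring
  calc (∑ r ∈ RR κ M, (((ZZ κ M).filter (fun s => s.1 = r)).card : ℝ))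
      ≤ ∑ r ∈ RR κ M, ∑ k : Fin 6, (if EE k r.1 r.2.1 r.2.2 ≠ 0 then
          C * 162 * (Le κ M / Real.log M ^ 4) * (1 / (r.1 : ℝ) * G (EE k r.1 r.2.1 r.2.2) ^ 18)
          else 0) := Finset.sum_le_sum key
    _ = _ := by
        rw [Finset.sum_comm, Finset.mul_sum]
        apply Finset.sum_congr rfl
        intro k _
        rw [Finset.sum_filter, Finset.mul_sum]
        apply Finset.sum_congr rfl
        intro r _
        split_ifs <;> simp

end Pool.Agent.Helper71.AB
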